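import Pool.Agent.K7.H73.BS.Alg
import Pool.Agent.R431.B.Om
import Pool.Agent.Y696.Stm2
import Pool.Agent.Y696.Aq
import Pool.Agent.R430.Q15

/-!
# The periods of `y² + y = x³`, and the local conditions
-/

set_option autoImplicit false

namespace Pool.Agent.K7.H73.BS

open NumberField IsDedekindDomain MeasureTheory WeierstrassCurve
open Pool.Agent.Y696 Pool.Agent.W192.HK Pool.Agent.TH936.CM Pool.Agent.TH936.PU
open scoped Classical

/-- the valuations of the period -/
theorem v_per {Γ : Type} [LinearOrderedCommGroupWithZero Γ] {v : Valuation ℂ Γ} (hv : v 2 < 1)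
    (k : Type) [Field k] [NumberField k] {Λ : PeriodPair} {ω : ℝ} (hΛ : IsPeriods Λ ω) {Rp Cp : ℝ}
    (hR : Rp = 2 * ∫ x in {x : ℝ | 0 < Pool.Agent.R431.B.Per.cubic (E27 ℤ) x},
      1 / Real.sqrt (Pool.Agent.R431.B.Per.cubic (E27 ℤ) x))
    (hC : Cp = 2 * (2 * ∫ x : ℂ, 1 / ‖Pool.Agent.R431.B.Per.cubic (E27 ℤ) x‖)) :
    0 < Rp ∧ 0 < Cp ∧
      v (((Rp ^ InfinitePlace.nrRealPlaces k * Cp ^ InfinitePlace.nrComplexPlaces k : ℝ)) : ℂ) =
        v (period k Λ ω) := by
  obtain ⟨Ω, hCur, hΩ⟩ := Pool.Agent.R431.B.exists_om hΛ.g₂ hΛ.g₃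
  obtain ⟨h1, h2, h3, h4⟩ := Pool.Agent.R431.B.v_periods hv hCur hΩ hR hC
  have e1 := v_period hCur hΛ.real hv
  have e2 := v_period_conj hCur hΛ.real hv
  have h5 : v (Cp : ℂ) = v Ω ^ 2 := by
    have : (Cp : ℂ) = ((Cp / Rp : ℝ) : ℂ) * (Rp : ℂ) := by
      rw [← Complex.ofReal_mul, div_mul_cancel₀ _ h1.ne']
    rw [this, map_mul, h4, h3, pow_two]
  have h6 : v ((2 * |((starRingEnd ℂ) Λ.ω₁ * Λ.ω₂).im| : ℝ) : ℂ) = v Ω ^ 2 := by
    have k2 : v ((Real.sqrt |((3 : ℤ) : ℝ)| : ℝ) : ℂ) = 1 := v_sqrtD hv (by norm_num)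
    rw [area hCur.lat, map_mul, map_mul, k2, one_mul, e2, ← e1, pow_two]
  refine ⟨h1, h2, ?_⟩
  unfold period
  rw [map_mul, map_pow, map_pow, h6, ← e1]
  push_cast
  rw [map_mul, map_pow, map_pow, h3, h5]

section loc
variable {k : Type} [Field k] [NumberField k]

lemma v_nat_le {L : Type} [Field L] {Γ : Type} [LinearOrderedCommGroupWithZero Γ]
    (v : Valuation L Γ) (n : ℕ) : v (n : L) ≤ 1 := by
  induction n with
  | zero => simp
  | succ n ih =>
    push_cast
    exact (v.map_add _ _).trans (max_le ih (by simp))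

/-- at the places that do not divide `3` all the points have nonsingular reduction -/
lemma nonsing_good (v : HeightOneSpectrum (𝓞 k)) (h3 : (3 : 𝓞 k) ∉ v.asIdeal)
    (P : ((E27 k).baseChange (v.adicCompletion k)).toAffine.Point) :
    NonsingRed Valued.v ((E27 k).baseChange (v.adicCompletion k)) P := by
  cases P with
  | zero => trivial
  | some x y h =>
    have h1 := h.1
    rw [Affine.equation_iff] at h1
    have a1 : ((E27 k).baseChange (v.adicCompletion k)).a₁ = 0 := map_zero _
    have a2 : ((E27 k).baseChange (v.adicCompletion k)).a₂ = 0 := map_zero _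
    have a3 : ((E27 k).baseChange (v.adicCompletion k)).a₃ = 1 := map_one _
    have a4 : ((E27 k).baseChange (v.adicCompletion k)).a₄ = 0 := map_zero _
    have a6 : ((E27 k).baseChange (v.adicCompletion k)).a₆ = 0 := map_zero _
    show 1 ≤ Valued.v (2 * y + _ * x + _) ∨ 1 ≤ Valued.v (3 * x ^ 2 + 2 * _ * x + _ - _ * y)
    rw [a1, a2, a3, a4]
    rw [a1, a2, a3, a4, a6] at h1
    by_contra hcon
    push Not at hcon
    obtain ⟨k1, k2⟩ := hcon
    have v3 : Valued.v (3 : v.adicCompletion k) = 1 := by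
      have e1 : (3 : v.adicCompletion k) = ((algebraMap (𝓞 k) k 3 : k) : v.adicCompletion k) := by
        rw [map_ofNat]
        exact (map_ofNat (algebraMap k (v.adicCompletion k)) 3).symm
      rw [e1, v.valuedAdicCompletion_eq_valuation', v.valuation_of_algebraMap]
      exact le_antisymm (v.intValuation_le_one _)
        (not_lt.1 fun hlt => h3 ((v.intValuation_lt_one_iff_mem _).1 hlt))
    have k3 : Valued.v (3 * x ^ 2) < 1 := by
      convert k2 using 2
      ring
    rw [map_mul, v3, one_mul, map_pow] at k3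
    have k4 : Valued.v x < 1 := by
      by_contra hge
      push Not at hge
      exact absurd (one_le_pow₀ hge (n := 2)) (not_le.2 k3)
    have k5 : Valued.v (2 * y + 1) < 1 := by
      convert k1 using 2
      ring
    have k6 : (2 * y + 1) ^ 2 = 4 * x ^ 3 + 1 := by linear_combination 4 * h1
    have k7 : Valued.v ((2 * y + 1) ^ 2) < 1 := by
      rw [map_pow]
      exact pow_lt_one₀ zero_le k5 two_ne_zero
    have k8 : Valued.v (4 * x ^ 3) < 1 := by
      rw [map_mul, map_pow]
      have k9 : Valued.v (4 : v.adicCompletion k) ≤ 1 := by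
        exact_mod_cast v_nat_le (Valued.v : Valuation (v.adicCompletion k) _) 4
      calc _ ≤ 1 * Valued.v x ^ 3 := by gcongr
        _ < 1 := by
          rw [one_mul]
          exact pow_lt_one₀ zero_le k4 (by norm_num)
    have k10 := Valuation.map_add_eq_of_lt_right (Valued.v : Valuation (v.adicCompletion k) _)
      (x := 4 * x ^ 3) (y := 1) (by rw [map_one]; exact k8)
    rw [k6, k10, map_one] at k7
    exact lt_irrefl _ k7

end loc

end Pool.Agent.K7.H73.BS
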