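import Mathlib

/-!
# Complex numbers that are integral at all the valuations above two
-/

set_option autoImplicit false

open Polynomial

namespace Pool.Agent.K7.H73.BS

/-- a complex number `x` with `v x ≤ 1` for all the valuations `v` of `ℂ` above `2` is algebraic,
and an odd multiple of it is an algebraic integer -/
theorem integral_of_val {x : ℂ}
    (h : ∀ (Γ : Type) [LinearOrderedCommGroupWithZero Γ] (v : Valuation ℂ Γ), v 2 < 1 → v x ≤ 1) :
    ∃ m : ℤ, Odd m ∧ IsIntegral ℤ ((m : ℂ) * x) := by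
  by_cases hx : x = 0
  · exact ⟨1, odd_one, by rw [hx, mul_zero]; exact isIntegral_zero⟩
  let A : Subring ℂ := (Polynomial.aeval (R := ℤ) x⁻¹).toRingHom.range
  have hA : ∀ f : ℤ[X], aeval x⁻¹ f ∈ A := fun f => ⟨f, rfl⟩
  have h2A : (2 : ℂ) ∈ A := by
    have := hA 2
    rwa [map_ofNat] at this
  have hxA : x⁻¹ ∈ A := by
    have := hA X
    simpa using this
  let I : Ideal A := Ideal.span {⟨2, h2A⟩, ⟨x⁻¹, hxA⟩}
  have hI : I = ⊤ := by
    by_contra hne
    obtain ⟨B, -, hB⟩ := I.image_subset_nonunits_valuationSubring hne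
    have k2 : B.valuation 2 < 1 := by
      rw [← ValuationSubring.mem_nonunits_iff]
      exact hB ⟨_, Ideal.subset_span (Set.mem_insert _ _), rfl⟩
    have kx : B.valuation x⁻¹ < 1 := by
      rw [← ValuationSubring.mem_nonunits_iff]
      exact hB ⟨_, Ideal.subset_span (Set.mem_insert_of_mem _ rfl), rfl⟩
    have h3 := h _ B.valuation k2
    rw [map_inv₀, inv_lt_one₀ ((Valuation.pos_iff _).2 hx)] at kx
    exact absurd h3 (not_le.2 kx)
  have h1 : (1 : A) ∈ I := by rw [hI]; trivial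
  obtain ⟨⟨_, f, rfl⟩, ⟨_, g, rfl⟩, hab⟩ := Ideal.mem_span_pair.1 h1
  have hab' : aeval x⁻¹ f * 2 + aeval x⁻¹ g * x⁻¹ = 1 := congrArg Subtype.val hab
  let q : ℤ[X] := f * 2 + g * X - 1
  have hq : aeval x⁻¹ q = 0 := by
    simp only [q, map_sub, map_add, map_mul, aeval_X, map_one, map_ofNat]
    rw [hab', sub_self]
  have hq0 : q.coeff 0 = 2 * f.coeff 0 - 1 := by
    simp only [q, coeff_sub, coeff_add, coeff_one_zero, mul_coeff_zero, coeff_X_zero, mul_zero,
      add_zero]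
    have : (2 : ℤ[X]).coeff 0 = 2 := by
      rw [show (2 : ℤ[X]) = C 2 from rfl, coeff_C_zero]
    rw [this]
    ring
  have hodd : Odd (q.coeff 0) := by
    rw [hq0]
    exact ⟨f.coeff 0 - 1, by ring⟩
  have hne : q.coeff 0 ≠ 0 := by
    intro h0
    rw [h0] at hodd
    exact absurd hodd (by decide)
  have hrev : aeval x q.reverse = 0 := by
    letI : Invertible x⁻¹ := ⟨x, mul_inv_cancel₀ hx, inv_mul_cancel₀ hx⟩
    exact (eval₂_reverse_eq_zero_iff (algebraMap ℤ ℂ) x⁻¹ q).2 hq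
  refine ⟨q.coeff 0, hodd, ?_⟩
  have h6 : q.reverse.leadingCoeff = q.coeff 0 := by
    rw [reverse_leadingCoeff, trailingCoeff, natTrailingDegree_eq_zero.2 (Or.inr hne)]
  have h7 := isIntegral_leadingCoeff_smul q.reverse x hrev
  rw [h6, zsmul_eq_mul] at h7
  exact h7

/-- a complex number which is a unit at all the valuations above `2` -/
theorem unit_of_val {x : ℂ}
    (h : ∀ (Γ : Type) [LinearOrderedCommGroupWithZero Γ] (v : Valuation ℂ Γ), v 2 < 1 → v x = 1) :
    ∃ m : ℤ, Odd m ∧ IsIntegral ℤ ((m : ℂ) * x) ∧ IsIntegral ℤ ((m : ℂ) * x⁻¹) := by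
  obtain ⟨m, hm, h1⟩ := integral_of_val (x := x) fun Γ _ v hv => (h Γ v hv).le
  obtain ⟨n, hn, h2⟩ := integral_of_val (x := x⁻¹) fun Γ _ v hv => by
    rw [map_inv₀, h Γ v hv, inv_one]
  refine ⟨m * n, hm.mul hn, ?_, ?_⟩
  · have : ((m * n : ℤ) : ℂ) * x = (n : ℂ) * ((m : ℂ) * x) := by push_cast; ring
    rw [this]
    exact (map_isIntegral_int (algebraMap ℤ ℂ) isIntegral_algebraMap).mul h1
  · have : ((m * n : ℤ) : ℂ) * x⁻¹ = (m : ℂ) * ((n : ℂ) * x⁻¹) := by push_cast; ring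
    rw [this]
    exact (map_isIntegral_int (algebraMap ℤ ℂ) isIntegral_algebraMap).mul h2

end Pool.Agent.K7.H73.BS
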